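import Pool.Agent.N105.LT.Defs

/-! LG/POLY: polynomial approximation of `ph θ` together with its divided differences. -/

set_option autoImplicit false

open MeasureTheory Set Filter Topology Real
open scoped Matrix

namespace Pool.Agent.N539.LG.Poly
open LTd Pool.Agent.N105.LT

lemma exp_two_ath {t : ℝ} (h1 : -1 < t) (h2 : t < 1) :
    exp (ath t) * exp (ath t) = (1 + t) / (1 - t) := by
  rw [← Real.exp_add]
  have : ath t + ath t = log ((1 + t) / (1 - t)) := by unfold ath; ring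
  rw [this, Real.exp_log]
  apply div_pos <;> linarith

lemma sinh_ath {t : ℝ} (h1 : -1 < t) (h2 : t < 1) : sinh (ath t) = t * cosh (ath t) := by
  have h := exp_two_ath h1 h2
  have hp : 0 < exp (ath t) := Real.exp_pos _
  have hn : exp (-ath t) = (exp (ath t))⁻¹ := Real.exp_neg _
  rw [Real.sinh_eq, Real.cosh_eq, hn]
  have h3 : (1 : ℝ) - t ≠ 0 := by linarith
  field_simp at h ⊢
  nlinarith [h]

lemma cosh_sq_ath {t : ℝ} (h1 : -1 < t) (h2 : t < 1) :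
    cosh (ath t) * cosh (ath t) = 1 / (1 - t ^ 2) := by
  have h := sinh_ath h1 h2
  have h3 := Real.cosh_sq (ath t)
  rw [h] at h3
  have h4 : (1 : ℝ) - t ^ 2 ≠ 0 := by nlinarith
  field_simp
  nlinarith [h3]

/-- The coefficients. -/
noncomputable def cf (θ : ℝ) (a : ℕ) : ℝ := -(θ * ((2 * θ) ^ a - (-(2 * θ)) ^ a) / a)

lemma cf_zero (θ : ℝ) : cf θ 0 = 0 := by simp [cf]

lemma abs_cf_mul_le (θ : ℝ) (h0 : 0 < θ) (a : ℕ) :
    |cf θ a| * a ≤ 2 * θ * (2 * θ) ^ a := by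
  rcases Nat.eq_zero_or_pos a with rfl | ha
  · simp [cf_zero]; positivity
  · have ha' : (0 : ℝ) < a := by exact_mod_cast ha
    unfold cf
    rw [abs_neg, abs_div, abs_of_pos ha', div_mul_cancel₀ _ ha'.ne', abs_mul, abs_of_pos h0]
    have h1 : |(2 * θ) ^ a - (-(2 * θ)) ^ a| ≤ (2 * θ) ^ a + (2 * θ) ^ a := by
      refine (abs_sub _ _).trans ?_
      rw [abs_pow, abs_pow, abs_neg, abs_of_pos (by positivity : (0 : ℝ) < 2 * θ)]
    nlinarith [mul_le_mul_of_nonneg_left h1 h0.le]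

lemma abs_cf_le (θ : ℝ) (h0 : 0 < θ) (a : ℕ) : |cf θ a| ≤ 2 * θ * (2 * θ) ^ a := by
  rcases Nat.eq_zero_or_pos a with rfl | ha
  · simp [cf_zero]; positivity
  · have ha' : (1 : ℝ) ≤ a := by exact_mod_cast ha
    have := abs_cf_mul_le θ h0 a
    nlinarith [abs_nonneg (cf θ a)]

lemma bound1 (θ : ℝ) (h0 : 0 < θ) (h1 : θ < 1) {s : ℝ} (hs : |s| ≤ 1 / 2) (a : ℕ) :
    ‖cf θ a * s ^ a‖ ≤ 4 * θ ^ a := by
  rw [Real.norm_eq_abs, abs_mul, abs_pow]
  have h2 : |s| ^ a ≤ (1 / 2) ^ a := pow_le_pow_left₀ (abs_nonneg _) hs a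
  have h3 := abs_cf_le θ h0 a
  calc |cf θ a| * |s| ^ a ≤ (2 * θ * (2 * θ) ^ a) * (1 / 2) ^ a := by
        apply mul_le_mul h3 h2 (by positivity) (by positivity)
    _ = 2 * θ * θ ^ a := by
        rw [mul_assoc, ← mul_pow]
        congr 2
        ring
    _ ≤ 4 * θ ^ a := by
        have : 0 < θ ^ a := by positivity
        nlinarith

lemma gs_bound {s r : ℝ} (hs : |s| ≤ 1 / 2) (hr : |r| ≤ 1 / 2) (a : ℕ) :
    |gs a s r| ≤ a * (2 * (1 / 2) ^ a) := by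
  unfold gs
  refine (Finset.abs_sum_le_sum_abs _ _).trans ?_
  have : ∀ l ∈ Finset.range a, |s ^ l * r ^ (a - 1 - l)| ≤ 2 * (1 / 2 : ℝ) ^ a := by
    intro l hl
    rw [Finset.mem_range] at hl
    rw [abs_mul, abs_pow, abs_pow]
    have h2 : |s| ^ l ≤ (1 / 2) ^ l := pow_le_pow_left₀ (abs_nonneg _) hs l
    have h3 : |r| ^ (a - 1 - l) ≤ (1 / 2) ^ (a - 1 - l) := pow_le_pow_left₀ (abs_nonneg _) hr _
    have h4 : (1 / 2 : ℝ) ^ l * (1 / 2) ^ (a - 1 - l) = 2 * (1 / 2 : ℝ) ^ a := by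
      rw [← pow_add]
      have : a = (l + (a - 1 - l)) + 1 := by omega
      conv_rhs => rw [this, pow_succ]
      ring
    rw [← h4]
    exact mul_le_mul h2 h3 (by positivity) (by positivity)
  refine (Finset.sum_le_card_nsmul _ _ _ this).trans ?_
  simp

lemma bound2 (θ : ℝ) (h0 : 0 < θ) (h1 : θ < 1) {s r : ℝ} (hs : |s| ≤ 1 / 2)
    (hr : |r| ≤ 1 / 2) (a : ℕ) : ‖cf θ a * gs a s r‖ ≤ 4 * θ ^ a := by
  rw [Real.norm_eq_abs, abs_mul]
  have h3 := abs_cf_mul_le θ h0 a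
  calc |cf θ a| * |gs a s r| ≤ |cf θ a| * (a * (2 * (1 / 2) ^ a)) :=
        mul_le_mul_of_nonneg_left (gs_bound hs hr a) (abs_nonneg _)
    _ = (|cf θ a| * a) * (2 * (1 / 2) ^ a) := by ring
    _ ≤ (2 * θ * (2 * θ) ^ a) * (2 * (1 / 2) ^ a) := by
        apply mul_le_mul_of_nonneg_right h3 (by positivity)
    _ = 4 * θ * θ ^ a := by
        have : (2 * θ) ^ a * (1 / 2) ^ a = θ ^ a := by
          rw [← mul_pow]; congr 1; ring
        linear_combination 4 * θ * this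
    _ ≤ 4 * θ ^ a := by
        have : 0 < θ ^ a := by positivity
        nlinarith

lemma sum_ph (θ : ℝ) (h0 : 0 < θ) (h1 : θ < 1) {s : ℝ} (hs : |s| ≤ 1 / 2) :
    HasSum (fun a => cf θ a * s ^ a) (ph θ s) := by
  have ht : |2 * θ * s| < 1 := by
    rw [abs_mul, abs_of_pos (by positivity : (0 : ℝ) < 2 * θ)]
    nlinarith [abs_nonneg s]
  have ht2 : |-(2 * θ * s)| < 1 := by rwa [abs_neg]
  have e1 := Real.hasSum_pow_div_log_of_abs_lt_one ht
  have e2 := Real.hasSum_pow_div_log_of_abs_lt_one ht2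
  have e3 := (e1.sub e2).mul_left (-θ)
  have hv : -θ * (-log (1 - 2 * θ * s) - -log (1 - -(2 * θ * s))) = ph θ s := by
    unfold ph ath
    have p1 : 1 + 2 * θ * s ≠ 0 := by have := (abs_lt.mp ht).1; linarith
    have p2 : 1 - 2 * θ * s ≠ 0 := by have := (abs_lt.mp ht).2; linarith
    rw [Real.log_div p1 p2, sub_neg_eq_add 1]
    ring
  rw [hv] at e3
  have e4 : HasSum (fun n => (fun a => cf θ a * s ^ a) (n + 1)) (ph θ s) := by
    refine e3.congr_fun ?_ |> fun h => h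
    intro n
    simp only [cf]
    push_cast
    have : ((n : ℝ) + 1) ≠ 0 := by positivity
    rw [neg_mul_eq_neg_mul (2 * θ) s, mul_pow, mul_pow (-(2 * θ)) s]
    field_simp
    ring
  have e5 := (hasSum_nat_add_iff (f := fun a => cf θ a * s ^ a) 1).mp e4
  simpa [cf_zero] using e5

lemma dd_ne (θ : ℝ) (h0 : 0 < θ) (h1 : θ < 1) {s r : ℝ} (hs : |s| ≤ 1 / 2) (hr : |r| ≤ 1 / 2)
    (hne : s ≠ r) : (ph θ s - ph θ r) / (s - r) = -dd θ s r := by
  have ht : |2 * θ * s| < 1 := by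
    rw [abs_mul, abs_of_pos (by positivity : (0 : ℝ) < 2 * θ)]
    nlinarith [abs_nonneg s]
  have ht2 : |2 * θ * r| < 1 := by
    rw [abs_mul, abs_of_pos (by positivity : (0 : ℝ) < 2 * θ)]
    nlinarith [abs_nonneg r]
  obtain ⟨a1, a2⟩ := abs_lt.mp ht
  obtain ⟨b1, b2⟩ := abs_lt.mp ht2
  have hS := sinh_ath a1 a2
  have hR := sinh_ath b1 b2
  have hd : sinh (ath (2 * θ * s) - ath (2 * θ * r)) =
      2 * θ * (s - r) * (cosh (ath (2 * θ * s)) * cosh (ath (2 * θ * r))) := by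
    rw [Real.sinh_sub, hS, hR]; ring
  have hc : 0 < cosh (ath (2 * θ * s)) * cosh (ath (2 * θ * r)) :=
    mul_pos (Real.cosh_pos _) (Real.cosh_pos _)
  have hsr : s - r ≠ 0 := sub_ne_zero.mpr hne
  have hne2 : sinh (ath (2 * θ * s) - ath (2 * θ * r)) ≠ 0 := by
    rw [hd]
    exact mul_ne_zero (mul_ne_zero (by positivity) hsr) hc.ne'
  have hA : ath (2 * θ * s) - ath (2 * θ * r) ≠ 0 := by
    intro h
    rw [h, Real.sinh_zero] at hne2
    exact hne2 rfl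
  unfold dd kk ph
  rw [if_neg hA, hd]
  have hc' := hc.ne'
  set C := cosh (ath (2 * θ * s)) * cosh (ath (2 * θ * r)) with hC
  field_simp
  ring

lemma dd_eq (θ : ℝ) (h0 : 0 < θ) (h1 : θ < 1) {s : ℝ} (hs : |s| ≤ 1 / 2) :
    dd θ s s = 4 * θ ^ 2 / (1 - (2 * θ * s) ^ 2) := by
  have ht : |2 * θ * s| < 1 := by
    rw [abs_mul, abs_of_pos (by positivity : (0 : ℝ) < 2 * θ)]
    nlinarith [abs_nonneg s]
  obtain ⟨a1, a2⟩ := abs_lt.mp ht
  unfold dd kk
  rw [sub_self, if_pos rfl, one_mul, cosh_sq_ath a1 a2]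
  ring

lemma gs_self (a : ℕ) (s : ℝ) : gs (a + 1) s s = (a + 1) * s ^ a := by
  unfold gs
  have : ∀ l ∈ Finset.range (a + 1), s ^ l * s ^ (a + 1 - 1 - l) = s ^ a := by
    intro l hl
    rw [Finset.mem_range] at hl
    rw [← pow_add]
    congr 1
    omega
  rw [Finset.sum_congr rfl this]
  simp

lemma sum_dd (θ : ℝ) (h0 : 0 < θ) (h1 : θ < 1) {s r : ℝ} (hs : |s| ≤ 1 / 2)
    (hr : |r| ≤ 1 / 2) : HasSum (fun a => cf θ a * gs a s r) (-dd θ s r) := by
  rcases eq_or_ne s r with rfl | hne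
  · have ht : |2 * θ * s| < 1 := by
      rw [abs_mul, abs_of_pos (by positivity : (0 : ℝ) < 2 * θ)]
      nlinarith [abs_nonneg s]
    have ht2 : |-(2 * θ * s)| < 1 := by rwa [abs_neg]
    have e1 := hasSum_geometric_of_abs_lt_one ht
    have e2 := hasSum_geometric_of_abs_lt_one ht2
    have e3 := (e1.add e2).mul_left (-(2 * θ ^ 2))
    have hv : -(2 * θ ^ 2) * ((1 - 2 * θ * s)⁻¹ + (1 - -(2 * θ * s))⁻¹) = -dd θ s s := by
      rw [dd_eq θ h0 h1 hs]
      obtain ⟨a1, a2⟩ := abs_lt.mp ht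
      have p1 : 1 + 2 * θ * s ≠ 0 := by linarith
      have p2 : 1 - 2 * θ * s ≠ 0 := by linarith
      have p3 : 1 - (2 * θ * s) ^ 2 = (1 - 2 * θ * s) * (1 + 2 * θ * s) := by ring
      rw [p3, sub_neg_eq_add 1]
      field_simp
      ring
    rw [hv] at e3
    have e4 : HasSum (fun n => (fun a => cf θ a * gs a s s) (n + 1)) (-dd θ s s) := by
      refine e3.congr_fun ?_ |> fun h => h
      intro n
      simp only [gs_self, cf]
      push_cast
      have : ((n : ℝ) + 1) ≠ 0 := by positivity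
      rw [neg_mul_eq_neg_mul (2 * θ) s, mul_pow, mul_pow (-(2 * θ)) s]
      field_simp
      ring
    have e5 := (hasSum_nat_add_iff (f := fun a => cf θ a * gs a s s) 1).mp e4
    simpa [cf_zero] using e5
  · have e := ((sum_ph θ h0 h1 hs).sub (sum_ph θ h0 h1 hr)).div_const (s - r)
    rw [dd_ne θ h0 h1 hs hr hne] at e
    refine e.congr_fun ?_ |> fun h => h
    intro a
    have hsr : s - r ≠ 0 := sub_ne_zero.mpr hne
    have hg : gs a s r * (s - r) = s ^ a - r ^ a := by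
      unfold gs
      exact (Commute.all s r).geom_sum₂_mul a
    rw [eq_div_iff hsr]
    linear_combination cf θ a * hg

theorem poly (θ ε : ℝ) (h0 : 0 < θ) (h1 : θ < 1) (hε : 0 < ε) :
    ∃ (K : ℕ) (c : ℕ → ℝ), ∀ s ∈ Icc (-(1 / 2) : ℝ) (1 / 2), ∀ r ∈ Icc (-(1 / 2) : ℝ) (1 / 2),
      |∑ a ∈ Finset.range K, c a * s ^ a - ph θ s| ≤ ε ∧
      |∑ a ∈ Finset.range K, c a * gs a s r + dd θ s r| ≤ ε := by
  have h2 : 0 < 1 - θ := by linarith
  obtain ⟨K, hK⟩ := exists_pow_lt_of_lt_one (show 0 < ε * (1 - θ) / 4 by positivity) h1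
  have hK' : 4 * θ ^ K / (1 - θ) ≤ ε := by
    rw [div_le_iff₀ h2]
    linarith
  refine ⟨K, cf θ, ?_⟩
  intro s hs r hr
  have hs' : |s| ≤ 1 / 2 := abs_le.mpr ⟨hs.1, hs.2⟩
  have hr' : |r| ≤ 1 / 2 := abs_le.mpr ⟨hr.1, hr.2⟩
  constructor
  · have := norm_sub_le_of_geometric_bound_of_hasSum h1 (bound1 θ h0 h1 hs')
      (sum_ph θ h0 h1 hs') K
    rw [Real.norm_eq_abs] at this
    exact this.trans hK'
  · have := norm_sub_le_of_geometric_bound_of_hasSum h1 (bound2 θ h0 h1 hs' hr')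
      (sum_dd θ h0 h1 hs' hr') K
    rw [Real.norm_eq_abs, sub_neg_eq_add] at this
    exact this.trans hK'

end Pool.Agent.N539.LG.Poly
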